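import Pool.Agent.Q151.Dice.Main

/-!
# MP_f30851_co: the maximal probability of a residue class for sums of identical dice

For all `n ≥ 2` and `1 ≤ k < n` the supremum `M(n,k)` is the maximum over `x ∈ [0,1]` of
`Pr(Bin(n,x) ≡ 1 mod n/gcd(n,k))`; it equals `(1-1/n)^(n-1)` when `gcd(n,k)=1` and `1/2` when
`n = 2k`.
-/

namespace Pool.Agent.Results.MP_f30851_co.AllResidues

open Finset Q151.Dice

/-- The probability that the sum of the labels of `n` independent tosses of a die with `m` faces,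
labelled `ℓ 0, …, ℓ (m-1)` (all faces equally likely), is congruent to `k` modulo `n`:
the number of favourable outcome vectors divided by `m ^ n`. -/
noncomputable def diceProb (n k m : ℕ) (ℓ : Fin m → ℤ) : ℝ :=
  ((Finset.univ.filter fun w : Fin n → Fin m => (∑ i, ℓ (w i)) ≡ (k : ℤ) [ZMOD (n : ℤ)]).card : ℝ) /
    (m : ℝ) ^ n

/-- All the values of that probability, over all dice with at least two faces. -/
def diceProbs (n k : ℕ) : Set ℝ := {y | ∃ m : ℕ, 2 ≤ m ∧ ∃ ℓ : Fin m → ℤ, y = diceProb n k m ℓ}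

/-- `M(n,k)`. -/
noncomputable def M (n k : ℕ) : ℝ := sSup (diceProbs n k)

/-- `Pr(Bin(n,x) ≡ 1 mod d)`, an explicit polynomial in `x`. -/
noncomputable def binOne (n d : ℕ) (x : ℝ) : ℝ :=
  ∑ j ∈ (range (n + 1)).filter (fun j => j ≡ 1 [MOD d]), (n.choose j : ℝ) * x ^ j * (1 - x) ^ (n - j)

/-- `Pr(Bin(n,x) ≡ 0 mod d)`, an explicit polynomial in `x`. -/
noncomputable def binZero (n d : ℕ) (x : ℝ) : ℝ :=
  ∑ j ∈ (range (n + 1)).filter (fun j => j ≡ 0 [MOD d]), (n.choose j : ℝ) * x ^ j * (1 - x) ^ (n - j)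

/-- the residue distribution of a die -/
noncomputable def dist {n : ℕ} {m : ℕ} (ℓ : Fin m → ℤ) (a : ZMod n) : ℝ :=
  ((Finset.univ.filter fun f : Fin m => (ℓ f : ZMod n) = a).card : ℝ) / m

lemma dist_nonneg {n m : ℕ} (ℓ : Fin m → ℤ) (a : ZMod n) : 0 ≤ dist ℓ a := by
  unfold dist; positivity

lemma sum_dist {n m : ℕ} [NeZero n] (ℓ : Fin m → ℤ) (g : ZMod n → ℝ) :
    ∑ b, dist ℓ b * g b = (∑ f, g (ℓ f : ZMod n)) / m := by
  have h : ∀ b : ZMod n, dist ℓ b * g b =
      (∑ f, if (ℓ f : ZMod n) = b then g b else 0) / m := by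
    intro b
    rw [← Finset.sum_filter, Finset.sum_const, nsmul_eq_mul]
    unfold dist; ring
  rw [Finset.sum_congr rfl fun b _ => h b, ← Finset.sum_div, Finset.sum_comm]
  congr 1
  refine Finset.sum_congr rfl fun f _ => ?_
  simp

lemma dist_total {n m : ℕ} [NeZero n] (hm : 0 < m) (ℓ : Fin m → ℤ) :
    ∑ b : ZMod n, dist ℓ b = 1 := by
  have := sum_dist (n := n) ℓ (fun _ => 1)
  simp only [mul_one, Finset.sum_const, Finset.card_univ, Fintype.card_fin, nsmul_eq_mul] at this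
  rw [this]
  have : (m : ℝ) ≠ 0 := by positivity
  field_simp

lemma cp_dist {n m : ℕ} [NeZero n] (ℓ : Fin m → ℤ) (r : ℕ) (s : ZMod n) :
    cp (dist ℓ) r s =
      (∑ w : Fin r → Fin m, if (∑ i, (ℓ (w i) : ZMod n)) = s then (1 : ℝ) else 0) / (m : ℝ) ^ r := by
  induction r generalizing s with
  | zero =>
    simp [cp_zero, eq_comm]
  | succ r ih =>
    rw [cp_succ, sum_dist]
    simp only [ih]
    rw [← Finset.sum_div, div_div, ← pow_succ]
    congr 1
    rw [← (Fin.consEquiv (fun _ => Fin m)).sum_comp, Fintype.sum_prod_type]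
    refine Finset.sum_congr rfl fun f _ => Finset.sum_congr rfl fun w _ => ?_
    have : (∑ i, (ℓ (w i) : ZMod n) = s - (ℓ f : ZMod n)) ↔
        (∑ i, (ℓ (((Fin.consEquiv (fun _ => Fin m)) (f, w)) i) : ZMod n) = s) := by
      rw [Fin.sum_univ_succ]
      simp only [Fin.consEquiv_apply, Fin.cons_zero, Fin.cons_succ]
      rw [eq_sub_iff_add_eq, add_comm]
    simp only [this]

lemma diceProb_eq {n k m : ℕ} [NeZero n] (ℓ : Fin m → ℤ) :
    diceProb n k m ℓ = cp (dist ℓ) n (k : ZMod n) := by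
  rw [cp_dist, diceProb]
  congr 1
  rw [Finset.card_filter]
  push_cast
  refine Finset.sum_congr rfl fun w _ => ?_
  have : ((∑ i, ℓ (w i)) ≡ (k : ℤ) [ZMOD (n : ℤ)]) ↔ (∑ i, (ℓ (w i) : ZMod n)) = (k : ZMod n) := by
    rw [← ZMod.intCast_eq_intCast_iff]
    push_cast
    rfl
  simp only [this]

lemma addOrderOf_k {n k : ℕ} (hn : n ≠ 0) : addOrderOf (k : ZMod n) = n / Nat.gcd n k := by
  rw [ZMod.addOrderOf_coe k hn]

lemma continuous_binOne (n d : ℕ) : Continuous (binOne n d) := by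
  unfold binOne
  fun_prop

lemma cp_tp_zero {n : ℕ} [NeZero n] (k : ZMod n) (x : ℝ) (r : ℕ) :
    cp (tp k x) r 0 = binZero r (addOrderOf k) x := by
  rw [cp_tp, binZero, Finset.sum_filter]
  refine Finset.sum_congr rfl fun j _ => ?_
  have : (j • k = 0) ↔ (j ≡ 0 [MOD addOrderOf k]) := by
    conv_lhs => rhs; rw [← zero_nsmul k]
    exact nsmul_eq_nsmul_iff_modEq
  simp only [this]
  split_ifs <;> simp

/-- the two-label die -/
lemma dist_two {n : ℕ} [NeZero n] (k m s : ℕ) (hm : 0 < m) (hs : s ≤ m) (a : ZMod n) :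
    dist (fun f : Fin m => if (f : ℕ) < s then (k : ℤ) else 0) a = tp (k : ZMod n) (s / m : ℝ) a := by
  have hm' : (m : ℝ) ≠ 0 := by positivity
  unfold dist tp
  have hc : ((Finset.univ.filter fun f : Fin m => (((if (f : ℕ) < s then (k : ℤ) else 0) : ℤ) : ZMod n) = a).card : ℝ)
      = s * (if a = (k : ZMod n) then 1 else 0) + ((m : ℝ) - s) * (if a = 0 then 1 else 0) := by
    rw [Finset.card_filter]
    push_cast
    have h1 : ∀ f : Fin m, (if (if (f : ℕ) < s then (k : ZMod n) else 0) = a then (1 : ℝ) else 0) =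
        (if (f : ℕ) < s then 1 else 0) * (if a = (k : ZMod n) then 1 else 0) +
        (1 - (if (f : ℕ) < s then 1 else 0)) * (if a = 0 then 1 else 0) := by
      intro f
      by_cases h : (f : ℕ) < s
      · simp [h, eq_comm]
      · simp [h, eq_comm]
    rw [Finset.sum_congr rfl fun f _ => h1 f, Finset.sum_add_distrib, ← Finset.sum_mul,
      ← Finset.sum_mul, Finset.sum_sub_distrib]
    have h2 : ∑ f : Fin m, (if (f : ℕ) < s then (1 : ℝ) else 0) = s := by
      rw [Fin.sum_univ_eq_sum_range (fun j => if j < s then (1 : ℝ) else 0) m, ← Finset.sum_filter]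
      have : (range m).filter (fun j => j < s) = range s := by
        ext j; simp only [Finset.mem_filter, Finset.mem_range]; omega
      rw [this]; simp
    rw [h2]
    simp
  push_cast at hc ⊢
  rw [hc]
  field_simp
  ring

lemma two_label {n k m s : ℕ} [NeZero n] (hm : 0 < m) (hs : s ≤ m) :
    diceProb n k m (fun f : Fin m => if (f : ℕ) < s then (k : ℤ) else 0) =
      binOne n (n / Nat.gcd n k) (s / m : ℝ) := by
  rw [diceProb_eq]
  have h1 : (dist (fun f : Fin m => if (f : ℕ) < s then (k : ℤ) else 0) : ZMod n → ℝ) =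
      tp (k : ZMod n) (s / m : ℝ) := funext fun a => dist_two k m s hm hs a
  rw [h1, cp_tp_k, addOrderOf_k (NeZero.ne n)]
  rfl

/-- every value of `binOne` is at most any upper bound of the dice probabilities -/
lemma binOne_le {n k : ℕ} [NeZero n] {c : ℝ} (hc : c ∈ upperBounds (diceProbs n k)) {x : ℝ}
    (h0 : 0 ≤ x) (h1 : x ≤ 1) : binOne n (n / Nat.gcd n k) x ≤ c := by
  have hlim : Filter.Tendsto (fun m : ℕ => ((⌊x * (m : ℝ)⌋₊ : ℝ) / (m : ℝ))) Filter.atTop (nhds x) :=
    (tendsto_nat_floor_mul_div_atTop h0).comp tendsto_natCast_atTop_atTop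
  have hlim2 := ((continuous_binOne n (n / Nat.gcd n k)).tendsto x).comp hlim
  refine le_of_tendsto hlim2 ?_
  filter_upwards [Filter.eventually_ge_atTop 2] with m hm
  have hs : ⌊x * (m : ℝ)⌋₊ ≤ m := by
    apply Nat.floor_le_of_le
    have : (0 : ℝ) ≤ m := Nat.cast_nonneg m
    nlinarith
  exact hc ⟨m, hm, _, (two_label (by omega) hs).symm⟩

lemma bern (N : ℕ) {s : ℝ} (hs : 0 ≤ s) : (N + 1) * s ^ N - N * s ^ (N + 1) ≤ 1 := by
  induction N with
  | zero => simp
  | succ N ih =>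
    have h1 : (s - 1) * (s ^ (N + 1) - 1) ≥ 0 := by
      rcases le_total s 1 with h | h
      · have : s ^ (N + 1) ≤ 1 := pow_le_one₀ hs h
        nlinarith
      · have : 1 ≤ s ^ (N + 1) := one_le_pow₀ h
        nlinarith
    have h2 := mul_le_mul_of_nonneg_left ih hs
    have e1 : s ^ (N + 1 + 1) = s * s ^ (N + 1) := by ring
    have e2 : s ^ (N + 1) = s * s ^ N := by ring
    push_cast
    rw [e1]
    nlinarith [h1, h2]

/-- the coprime case -/
lemma coprime_le (N : ℕ) {x : ℝ} (h1 : x ≤ 1) :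
    ((N : ℝ) + 1) * x * (1 - x) ^ N ≤ ((N : ℝ) / (N + 1)) ^ N := by
  rcases Nat.eq_zero_or_pos N with h | h
  · subst h; simpa using h1
  have hN : (0 : ℝ) < N := by exact_mod_cast h
  have h3 := bern N (s := (1 - x) * ((N + 1) / N)) (by
    have : 0 ≤ 1 - x := by linarith
    positivity)
  have h4 : ((N : ℝ) + 1) * ((1 - x) * ((N + 1) / N)) ^ N - N * ((1 - x) * ((N + 1) / N)) ^ (N + 1) =
      (((N : ℝ) + 1) * x * (1 - x) ^ N) * ((N + 1) / N) ^ N := by
    rw [pow_succ ((1 - x) * ((N + 1 : ℝ) / N)) N, mul_pow]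
    field_simp
    ring
  rw [h4] at h3
  have h5 : ((N : ℝ) / (N + 1)) ^ N * ((N + 1) / N) ^ N = 1 := by
    rw [← mul_pow]
    have : (N : ℝ) / (N + 1) * ((N + 1) / N) = 1 := by field_simp
    rw [this, one_pow]
  have h6 : 0 < ((N : ℝ) + 1) / N := by positivity
  have h7 : 0 < (((N : ℝ) + 1) / N) ^ N := by positivity
  nlinarith

lemma binOne_coprime (n : ℕ) (hn : 2 ≤ n) (x : ℝ) :
    binOne n n x = n * x * (1 - x) ^ (n - 1) := by
  unfold binOne
  have : (range (n + 1)).filter (fun j => j ≡ 1 [MOD n]) = {1} := by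
    ext j
    simp only [Finset.mem_filter, Finset.mem_range, Finset.mem_singleton]
    constructor
    · rintro ⟨h1, h2⟩
      unfold Nat.ModEq at h2
      rw [Nat.mod_eq_of_lt (show 1 < n by omega)] at h2
      rcases Nat.lt_or_ge j n with h3 | h3
      · rwa [Nat.mod_eq_of_lt h3] at h2
      · have : j = n := by omega
        subst this
        simp at h2
    · rintro rfl
      exact ⟨by omega, Nat.ModEq.refl 1⟩
  rw [this]
  simp

lemma binOne_two (n : ℕ) (x : ℝ) :
    binOne n 2 x = (1 - (1 - 2 * x) ^ n) / 2 := by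
  have h1 : ∑ j ∈ range (n + 1), (n.choose j : ℝ) * x ^ j * (1 - x) ^ (n - j) = 1 := by
    have := add_pow x (1 - x) n
    have e : x + (1 - x) = 1 := by ring
    rw [e, one_pow] at this
    refine Eq.trans ?_ this.symm
    exact Finset.sum_congr rfl fun j _ => by ring
  have h2 : ∑ j ∈ range (n + 1), (n.choose j : ℝ) * x ^ j * (1 - x) ^ (n - j) * (-1) ^ j =
      (1 - 2 * x) ^ n := by
    have := add_pow (-x) (1 - x) n
    have e : -x + (1 - x) = 1 - 2 * x := by ring
    rw [e] at this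
    rw [this]
    refine Finset.sum_congr rfl fun j _ => ?_
    rw [neg_pow]; ring
  have h3 : (1 - (1 - 2 * x) ^ n) / 2 = (∑ j ∈ range (n + 1), (n.choose j : ℝ) * x ^ j *
      (1 - x) ^ (n - j) - ∑ j ∈ range (n + 1), (n.choose j : ℝ) * x ^ j * (1 - x) ^ (n - j) *
        (-1) ^ j) / 2 := by rw [h1, h2]
  rw [h3]
  unfold binOne
  rw [Finset.sum_filter, ← Finset.sum_sub_distrib, Finset.sum_div]
  refine Finset.sum_congr rfl fun j _ => ?_
  rcases Nat.even_or_odd j with h | h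
  · have : ¬ (j ≡ 1 [MOD 2]) := by
      unfold Nat.ModEq
      obtain ⟨c, hc⟩ := h
      omega
    rw [if_neg this, h.neg_one_pow]; ring
  · have : (j ≡ 1 [MOD 2]) := by
      unfold Nat.ModEq
      obtain ⟨c, hc⟩ := h
      omega
    rw [if_pos this, h.neg_one_pow]; ring

/-- **Answer to Q1.**  For all `n ≥ 2` and `1 ≤ k < n`, the supremum `M(n,k)` (a genuine least
upper bound) is the maximum over `x ∈ [0,1]` of the polynomial `Pr(Bin(n,x) ≡ 1 mod d)`,
`d = n/gcd(n,k)`; at the maximiser `x₀ ∈ (0,1)` it is also the common value of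
`Pr(Bin(n-1,x₀) ≡ 0 mod d)` and `Pr(Bin(n-1,x₀) ≡ 1 mod d)`, so that `x₀` is a root of an explicit
polynomial.  It is `(1-1/n)^(n-1)` if `gcd(n,k)=1` and `1/2` if `n=2k`. -/
theorem result (n k : ℕ) (hn : 2 ≤ n) (hk : 1 ≤ k) (hkn : k < n) :
    IsLUB (diceProbs n k) (M n k) ∧
    (∃ x₀ : ℝ, 0 < x₀ ∧ x₀ < 1 ∧
      (∀ x : ℝ, 0 ≤ x → x ≤ 1 →
        binOne n (n / Nat.gcd n k) x ≤ binOne n (n / Nat.gcd n k) x₀) ∧
      M n k = binOne n (n / Nat.gcd n k) x₀ ∧
      M n k = binZero (n - 1) (n / Nat.gcd n k) x₀ ∧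
      M n k = binOne (n - 1) (n / Nat.gcd n k) x₀) ∧
    (Nat.Coprime n k → M n k = (1 - 1 / (n : ℝ)) ^ (n - 1)) ∧
    (n = 2 * k → M n k = 1 / 2) := by
  have : NeZero n := ⟨by omega⟩
  obtain ⟨N, hN⟩ : ∃ N, n = N + 1 := ⟨n - 1, by omega⟩
  have hN1 : 1 ≤ N := by omega
  have hk0 : (k : ZMod n) ≠ 0 := by
    intro h
    rw [ZMod.natCast_eq_zero_iff] at h
    have := Nat.le_of_dvd (by omega) h
    omega
  obtain ⟨y, hy0, hy1, hy⟩ := exists_best hN1 hN hk0
  rw [addOrderOf_k (NeZero.ne n)] at hy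
  -- `binOne` at `y` is the maximum
  have hmax : ∀ x : ℝ, 0 ≤ x → x ≤ 1 →
      binOne n (n / Nat.gcd n k) x ≤ binOne n (n / Nat.gcd n k) y := by
    intro x h0 h1
    have := hy _ (tp_nonneg (k : ZMod n) h0 h1) (tp_sum _ x)
    rw [cp_tp_k, addOrderOf_k (NeZero.ne n)] at this
    exact this
  have hlub : IsLUB (diceProbs n k) (binOne n (n / Nat.gcd n k) y) := by
    constructor
    · rintro _ ⟨m, hm, ℓ, rfl⟩
      rw [diceProb_eq]
      exact hy _ (dist_nonneg ℓ) (dist_total (by omega) ℓ)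
    · intro c hc
      exact binOne_le hc hy0 hy1
  have hM : M n k = binOne n (n / Nat.gcd n k) y := hlub.csSup_eq ⟨_, 2, le_refl _, fun _ => 0, rfl⟩
  -- the value is positive, hence `0 < y < 1`
  have hpos : 0 < M n k := by
    have h1 := third_num N hN1
    have h2 := bin1_ge N hN1 (n / Nat.gcd n k)
    have h3 := hmax (1 / (N + 1 : ℝ)) (by positivity) (by
      rw [div_le_one (by positivity)]
      have : (0 : ℝ) ≤ N := Nat.cast_nonneg N
      linarith)
    have h4 : binOne n (n / Nat.gcd n k) (1 / (N + 1 : ℝ)) =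
        bin1 (N + 1) (n / Nat.gcd n k) (1 / (N + 1 : ℝ)) :=
      congrArg (fun r => bin1 r (n / Nat.gcd n k) (1 / (N + 1 : ℝ))) hN
    rw [h4] at h3
    rw [hM]
    linarith
  have hgn : Nat.gcd n k ∣ n := Nat.gcd_dvd_left n k
  have hgpos : 0 < Nat.gcd n k := Nat.gcd_pos_of_pos_left _ (by omega)
  have hgk : Nat.gcd n k ≤ k := Nat.gcd_le_right _ (by omega)
  have hd2 : 2 ≤ n / Nat.gcd n k := by
    obtain ⟨c, hc⟩ := hgn
    rw [Nat.div_eq_of_eq_mul_right hgpos hc]
    by_contra hlt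
    have : c = 0 ∨ c = 1 := by omega
    rcases this with rfl | rfl
    · omega
    · omega
  have hyne0 : y ≠ 0 := by
    intro h
    rw [hM, h, binOne] at hpos
    refine absurd hpos (not_lt.2 (le_of_eq (Finset.sum_eq_zero fun j hj => ?_)))
    have hj' : j ≠ 0 := by
      rintro rfl
      have h2 := (Finset.mem_filter.1 hj).2
      unfold Nat.ModEq at h2
      rw [Nat.zero_mod, Nat.mod_eq_of_lt (show 1 < n / Nat.gcd n k by omega)] at h2
      omega
    rw [zero_pow hj']; ring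
  have hyne1 : y ≠ 1 := by
    intro h
    rw [hM, h, binOne] at hpos
    refine absurd hpos (not_lt.2 (le_of_eq (Finset.sum_eq_zero fun j hj => ?_)))
    have hjn := Finset.mem_range.1 (Finset.mem_filter.1 hj).1
    have hj' : n - j ≠ 0 := by
      intro h3
      have h4 : j = n := by omega
      have h2 := (Finset.mem_filter.1 hj).2
      unfold Nat.ModEq at h2
      rw [h4, Nat.mod_eq_zero_of_dvd (Nat.div_dvd_of_dvd hgn),
        Nat.mod_eq_of_lt (show 1 < n / Nat.gcd n k by omega)] at h2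
      omega
    rw [sub_self, zero_pow hj']; ring
  have hy0' : 0 < y := lt_of_le_of_ne hy0 (Ne.symm hyne0)
  have hy1' : y < 1 := lt_of_le_of_ne hy1 hyne1
  have hval : ∀ r, cp (tp (k : ZMod n) y) r (k : ZMod n) = binOne r (n / Nat.gcd n k) y := by
    intro r
    rw [cp_tp_k, addOrderOf_k (NeZero.ne n)]
    rfl
  have hcpn : ∀ q : ZMod n → ℝ, cp q (N + 1) (k : ZMod n) = cp q n (k : ZMod n) :=
    fun q => congrArg (fun r => cp q r (k : ZMod n)) hN.symm
  have hopt : ∀ q : ZMod n → ℝ, (∀ a, 0 ≤ q a) → ∑ a, q a = 1 →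
      cp q (N + 1) (k : ZMod n) ≤ cp (tp (k : ZMod n) y) (N + 1) (k : ZMod n) := by
    intro q hq hq'
    rw [hcpn, hcpn, hval]
    exact hy q hq hq'
  have hFM : cp (tp (k : ZMod n) y) (N + 1) (k : ZMod n) = M n k := by
    rw [hcpn, hval, hM]
  have hc1 := max_cond_eq (tp_nonneg (k : ZMod n) hy0 hy1) (tp_sum _ y) N (k : ZMod n) hopt 0
    (by unfold tp; rw [if_pos rfl, if_neg (Ne.symm hk0)]; linarith)
  have hc2 := max_cond_eq (tp_nonneg (k : ZMod n) hy0 hy1) (tp_sum _ y) N (k : ZMod n) hopt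
    (k : ZMod n) (by unfold tp; rw [if_pos rfl, if_neg hk0]; linarith)
  rw [sub_zero, hval, hFM] at hc1
  rw [sub_self, cp_tp_zero, addOrderOf_k (NeZero.ne n), hFM] at hc2
  have hNn1 : N = n - 1 := by omega
  rw [hNn1] at hc1 hc2
  refine ⟨by rw [hM]; exact hlub, ⟨y, hy0', hy1', hmax, hM, hc2.symm, hc1.symm⟩, ?_, ?_⟩
  · intro hcop
    have hg : n / Nat.gcd n k = n := by
      rw [Nat.Coprime] at hcop
      rw [hcop, Nat.div_one]
    rw [hg] at hM hmax
    have hNn : (n : ℝ) = N + 1 := by rw [hN]; push_cast; ring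
    have hn1 : n - 1 = N := by omega
    have e : (1 : ℝ) - 1 / (n : ℝ) = (N : ℝ) / (N + 1) := by rw [hNn]; field_simp; ring
    rw [hM, e, hn1]
    apply le_antisymm
    · rw [binOne_coprime n hn, hn1, hNn]
      exact coprime_le N hy1
    · refine le_trans (le_of_eq ?_) (hmax (1 / (N + 1 : ℝ)) (by positivity) ?_)
      · rw [binOne_coprime n hn, hn1, hNn]
        have : (1 - 1 / (N + 1 : ℝ)) = (N : ℝ) / (N + 1) := by field_simp; ring
        rw [this]
        field_simp
      · rw [div_le_one (by positivity)]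
        have : (0 : ℝ) ≤ N := Nat.cast_nonneg N
        linarith
  · intro h2
    have hg : n / Nat.gcd n k = 2 := by
      rw [h2, Nat.gcd_mul_left_left, Nat.mul_div_cancel _ (by omega)]
    rw [hg] at hM hmax
    rw [hM]
    apply le_antisymm
    · rw [binOne_two]
      have : 0 ≤ (1 - 2 * y) ^ n := by
        rw [h2, pow_mul]; positivity
      linarith
    · have h3 := hmax (1 / 2) (by norm_num) (by norm_num)
      rw [binOne_two n (1 / 2)] at h3
      have : (1 - 2 * (1 / 2 : ℝ)) ^ n = 0 := by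
        norm_num
        omega
      rw [this] at h3
      linarith

end Pool.Agent.Results.MP_f30851_co.AllResidues
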